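import Pool.Agent.T2H45.NB.E
import Pool.Agent.Results.MP_5e7226_co.AllConvexBodies

set_option autoImplicit false
set_option linter.unusedSectionVars false

/-!
# Interior points close to the boundary of a polytope, part 6

Bounds in all dimensions, and the dimension of the smallest face.
-/

namespace Pool.Agent.T2H45.NB

open scoped InnerProductSpace Topology
open Metric Pool.Agent.H985.Sep Pool.Agent.R753 Pool.Agent.R753.SJ Module Filter

/-- bounds in all dimensions -/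
noncomputable def bnd : ℕ → ℕ
  | 0 => 1
  | 1 => 2
  | 2 => 4
  | 3 => 13
  | (k + 4) => ⌊(3 : ℝ) * 2 ^ (k + 4) * (((k + 4 : ℕ) : ℝ) *
      Real.log (2 * ((k + 4 : ℕ) : ℝ) ^ 2 + 2 * ((k + 4 : ℕ) : ℝ) + 1))⌋₊

lemma log_ge {d : ℕ} (hd : 2 ≤ d) : 1 ≤ Real.log (2 * (d : ℝ) ^ 2 + 2 * d + 1) := by
  have hd' : (2 : ℝ) ≤ d := by exact_mod_cast hd
  rw [Real.le_log_iff_exp_le (by positivity)]
  have := Real.exp_one_lt_d9
  nlinarith

lemma one_le_bnd : ∀ k, 1 ≤ bnd k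
  | 0 => le_rfl
  | 1 => by simp [bnd]
  | 2 => by simp [bnd]
  | 3 => by simp [bnd]
  | (k + 4) => by
    have h1 := log_ge (d := k + 4) (by omega)
    have h2 : (1 : ℝ) ≤ ((k + 4 : ℕ) : ℝ) := by exact_mod_cast (show 1 ≤ k + 4 by omega)
    have h3 : (1 : ℝ) ≤ 2 ^ (k + 4) := one_le_pow₀ (by norm_num)
    unfold bnd
    apply Nat.le_floor
    rw [Nat.cast_one]
    have h4 : (1 : ℝ) ≤ ((k + 4 : ℕ) : ℝ) *
      Real.log (2 * ((k + 4 : ℕ) : ℝ) ^ 2 + 2 * ((k + 4 : ℕ) : ℝ) + 1) := by nlinarith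
    nlinarith

lemma bnd_le {d k : ℕ} (hd : 2 ≤ d) (hk : k ≤ d) :
    (bnd k : ℝ) ≤ 2 ^ k * (3 * (d * Real.log (2 * (d : ℝ) ^ 2 + 2 * d + 1))) := by
  have h1 := log_ge hd
  have hd' : (2 : ℝ) ≤ d := by exact_mod_cast hd
  have h2 : 2 ≤ (d : ℝ) * Real.log (2 * (d : ℝ) ^ 2 + 2 * d + 1) := by nlinarith
  match k, hk with
  | 0, _ => simp only [bnd]; push_cast; linarith
  | 1, _ => simp only [bnd]; push_cast; linarith
  | 2, _ => simp only [bnd]; push_cast; linarith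
  | 3, _ => simp only [bnd]; push_cast; linarith
  | (k + 4), hk =>
    unfold bnd
    have hk' : ((k + 4 : ℕ) : ℝ) ≤ d := by exact_mod_cast hk
    have hk4 : (2 : ℝ) ≤ ((k + 4 : ℕ) : ℝ) := by exact_mod_cast (show 2 ≤ k + 4 by omega)
    have hl := log_ge (d := k + 4) (by omega)
    refine (Nat.floor_le (by positivity)).trans ?_
    have h3 : Real.log (2 * ((k + 4 : ℕ) : ℝ) ^ 2 + 2 * ((k + 4 : ℕ) : ℝ) + 1)
        ≤ Real.log (2 * (d : ℝ) ^ 2 + 2 * d + 1) := by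
      apply Real.log_le_log (by positivity)
      gcongr
    calc (3 : ℝ) * 2 ^ (k + 4) * (((k + 4 : ℕ) : ℝ) *
          Real.log (2 * ((k + 4 : ℕ) : ℝ) ^ 2 + 2 * ((k + 4 : ℕ) : ℝ) + 1))
        ≤ 3 * 2 ^ (k + 4) * (d * Real.log (2 * (d : ℝ) ^ 2 + 2 * d + 1)) := by gcongr
      _ = 2 ^ (k + 4) * (3 * (d * Real.log (2 * (d : ℝ) ^ 2 + 2 * d + 1))) := by ring

lemma sepd_all (k : ℕ) (V : Type) [NormedAddCommGroup V] [InnerProductSpace ℝ V]
    [FiniteDimensional ℝ V] (hV : finrank ℝ V = k) (C : Set V) (hCc : IsCompact C)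
    (h0 : 0 ∈ interior C) : Sepd (bnd k) C 0 := by
  by_cases h3 : k ≤ 3
  · have h := sepd_small hV h3 hCc h0
    have h4 : bd k = bnd k := by
      interval_cases k <;> rfl
    rwa [h4] at h
  · obtain ⟨j, rfl⟩ : ∃ j, k = j + 4 := ⟨k - 4, by omega⟩
    let f : V ≃ₗᵢ[ℝ] EuclideanSpace ℝ (Fin (j + 4)) :=
      ((stdOrthonormalBasis ℝ V).reindex (finCongr hV)).repr
    have hi : (0 : EuclideanSpace ℝ (Fin (j + 4))) ∈ interior (f '' C) := by
      have h1 : interior (f '' C) = f '' interior C := (f.toHomeomorph.image_interior C).symm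
      rw [h1]
      exact ⟨0, h0, map_zero f⟩
    refine sepd_isometry f ?_
    obtain ⟨H, h1, h2⟩ := Results.MP_5e7226_co.AllConvexBodies.result (j + 4) (by omega)
      (f '' C) (hCc.image f.continuous) 0 hi
    exact ⟨H, Nat.le_floor h1, h2⟩

variable {E : Type} [NormedAddCommGroup E] [InnerProductSpace ℝ E] [FiniteDimensional ℝ E]

/-- the dimension of the smallest face -/
lemma faceDim_eq {I : Finset (E × ℝ)} {p : E} (hp : p ∈ SJ.Poly I) :
    vectorSpan ℝ {x | x ∈ SJ.Poly I ∧ act I p ⊆ act I x} = (AA I p)ᗮ := by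
  rw [face_eq]
  apply le_antisymm
  · rw [vectorSpan_def, Submodule.span_le]
    rintro _ ⟨_, ⟨z, -, rfl⟩, _, ⟨w, -, rfl⟩, rfl⟩
    have : p + (z : E) - (p + (w : E)) = ((z - w : (AA I p)ᗮ) : E) := by
      rw [Submodule.coe_sub]
      abel
    simp only [vsub_eq_sub, this]
    exact Submodule.coe_mem _
  · intro z hz
    obtain ⟨t, ht, h⟩ := move (v := z) hp (fun h hh => (mem_orth.1 hz h hh).le)
    have h1 : p + t • z ∈ (fun z : (AA I p)ᗮ => p + (z : E)) '' FF I p :=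
      ⟨⟨t • z, (AA I p)ᗮ.smul_mem t hz⟩, h, rfl⟩
    have h2 : p ∈ (fun z : (AA I p)ᗮ => p + (z : E)) '' FF I p :=
      ⟨0, by show p + ((0 : (AA I p)ᗮ) : E) ∈ SJ.Poly I; simpa using hp, by simp⟩
    have h3 := vsub_mem_vectorSpan ℝ h1 h2
    rw [vsub_eq_sub, add_sub_cancel_left] at h3
    have h4 := Submodule.smul_mem _ t⁻¹ h3
    rwa [inv_smul_smul₀ ht.ne'] at h4

end Pool.Agent.T2H45.NB
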