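import Pool.Agent.R753.SJ.I

set_option autoImplicit false
set_option linter.unusedSectionVars false

/-!
# Interior points close to the boundary of a polytope, part 1

The active constraints, faces, and the hyperplanes for the faces through a boundary point.
-/

namespace Pool.Agent.T2H45.NB

open scoped InnerProductSpace Topology
open Metric Pool.Agent.H985.Sep Pool.Agent.R753 Pool.Agent.R753.SJ Module Filter

variable {E : Type} [NormedAddCommGroup E] [InnerProductSpace ℝ E] [FiniteDimensional ℝ E]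

open Classical in
/-- the constraints active at `x` -/
noncomputable def act (I : Finset (E × ℝ)) (x : E) : Finset (E × ℝ) :=
  I.filter fun h => ⟪h.1, x⟫_ℝ = h.2

omit [FiniteDimensional ℝ E] in
lemma mem_act {I : Finset (E × ℝ)} {x : E} {h : E × ℝ} :
    h ∈ act I x ↔ h ∈ I ∧ ⟪h.1, x⟫_ℝ = h.2 := by
  simp [act]

omit [FiniteDimensional ℝ E] in
/-- feasible directions -/
lemma move {I : Finset (E × ℝ)} {x v : E} (hx : x ∈ SJ.Poly I)
    (hv : ∀ h ∈ act I x, ⟪h.1, v⟫_ℝ ≤ 0) : ∃ t : ℝ, 0 < t ∧ x + t • v ∈ SJ.Poly I := by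
  have h1 : ∀ᶠ t : ℝ in 𝓝[>] 0, ∀ h ∈ I, ⟪h.1, x + t • v⟫_ℝ ≤ h.2 := by
    rw [Filter.eventually_all_finset]
    intro h hh
    by_cases ha : ⟪h.1, x⟫_ℝ = h.2
    · filter_upwards [self_mem_nhdsWithin] with t ht
      rw [inner_add_right, real_inner_smul_right, ha]
      have := hv h (mem_act.2 ⟨hh, ha⟩)
      have ht' : (0 : ℝ) < t := ht
      nlinarith
    · have h2 : ⟪h.1, x⟫_ℝ < h.2 := lt_of_le_of_ne (hx h hh) ha
      have h3 : Tendsto (fun t : ℝ => ⟪h.1, x + t • v⟫_ℝ) (𝓝[>] 0) (𝓝 ⟪h.1, x + (0 : ℝ) • v⟫_ℝ) := by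
        have : Continuous (fun t : ℝ => ⟪h.1, x + t • v⟫_ℝ) := by fun_prop
        exact this.continuousAt.tendsto.mono_left nhdsWithin_le_nhds
      rw [zero_smul, add_zero] at h3
      filter_upwards [h3.eventually_lt_const h2] with t ht
      exact ht.le
  have h2 : ∀ᶠ t : ℝ in 𝓝[>] 0, 0 < t := self_mem_nhdsWithin
  obtain ⟨t, h3, h4⟩ := (h1.and h2).exists
  exact ⟨t, h4, h3⟩

omit [FiniteDimensional ℝ E] in
/-- a point of the face with the fewest active constraints -/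
lemma exists_generic {I : Finset (E × ℝ)} {u x₀ : E} (hx₀ : x₀ ∈ SJ.Poly I)
    (hmax : ∀ y ∈ SJ.Poly I, ⟪u, y⟫_ℝ ≤ ⟪u, x₀⟫_ℝ) :
    ∃ x₁ ∈ SJ.Poly I, ⟪u, x₁⟫_ℝ = ⟪u, x₀⟫_ℝ ∧
      (∀ x ∈ SJ.Poly I, ⟪u, x⟫_ℝ = ⟪u, x₀⟫_ℝ → act I x₁ ⊆ act I x) ∧
      (∀ x ∈ SJ.Poly I, act I x₁ ⊆ act I x → ⟪u, x⟫_ℝ = ⟪u, x₀⟫_ℝ) := by
  classical
  have hne : ∃ n, ∃ x ∈ SJ.Poly I, ⟪u, x⟫_ℝ = ⟪u, x₀⟫_ℝ ∧ (act I x).card = n :=
    ⟨_, x₀, hx₀, rfl, rfl⟩
  obtain ⟨x₁, h1, h2, h3⟩ := Nat.find_spec hne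
  refine ⟨x₁, h1, h2, fun x hx hxu => ?_, fun x hx hxa => ?_⟩
  · have hm : (1 / 2 : ℝ) • x₁ + (1 / 2 : ℝ) • x ∈ SJ.Poly I := by
      intro h hh
      rw [inner_add_right, real_inner_smul_right, real_inner_smul_right]
      have a1 := h1 h hh
      have a2 := hx h hh
      linarith
    have hmu : ⟪u, (1 / 2 : ℝ) • x₁ + (1 / 2 : ℝ) • x⟫_ℝ = ⟪u, x₀⟫_ℝ := by
      rw [inner_add_right, real_inner_smul_right, real_inner_smul_right, h2, hxu]
      ring
    have hsub : act I ((1 / 2 : ℝ) • x₁ + (1 / 2 : ℝ) • x) ⊆ act I x₁ ∩ act I x := by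
      intro h hh
      obtain ⟨hI, he⟩ := mem_act.1 hh
      rw [inner_add_right, real_inner_smul_right, real_inner_smul_right] at he
      have a1 := h1 h hI
      have a2 := hx h hI
      rw [Finset.mem_inter, mem_act, mem_act]
      exact ⟨⟨hI, by linarith⟩, hI, by linarith⟩
    have hc := Nat.find_min' hne ⟨_, hm, hmu, rfl⟩
    rw [← h3] at hc
    have hle : (act I x₁).card ≤ (act I x₁ ∩ act I x).card :=
      hc.trans (Finset.card_le_card hsub)
    have heq := Finset.eq_of_subset_of_card_le (Finset.inter_subset_left) hle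
    intro h hh
    rw [← heq] at hh
    exact (Finset.mem_inter.1 hh).2
  · obtain ⟨t, ht, htm⟩ := move (v := x₁ - x) h1 (fun h hh => by
      have a1 := (mem_act.1 hh).2
      have a2 := (mem_act.1 (hxa hh)).2
      rw [inner_sub_right, a1, a2, sub_self])
    have h4 := hmax _ htm
    rw [inner_add_right, real_inner_smul_right, inner_sub_right, h2] at h4
    have h5 := hmax x hx
    refine le_antisymm h5 ?_
    by_contra h6
    push Not at h6
    nlinarith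

/-- interior points are strictly inside -/
lemma strict_lt {I : Finset (E × ℝ)} (hI : ∀ h ∈ I, h.1 ≠ 0) {o : E}
    (ho : o ∈ interior (SJ.Poly I)) {h : E × ℝ} (hh : h ∈ I) : ⟪h.1, o⟫_ℝ < h.2 := by
  obtain ⟨y, hy, hpos⟩ := exists_pos ho (hI h hh)
  have := hy h hh
  rw [inner_sub_right] at hpos
  linarith

/-- the faces have active constraints -/
lemma act_nonempty {I : Finset (E × ℝ)} {u x₁ : E} (hu : u ≠ 0) (hx₁ : x₁ ∈ SJ.Poly I)
    (hmax : ∀ y ∈ SJ.Poly I, ⟪u, y⟫_ℝ ≤ ⟪u, x₁⟫_ℝ) : (act I x₁).Nonempty := by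
  by_contra hne
  rw [Finset.not_nonempty_iff_eq_empty] at hne
  have hint : x₁ ∈ interior (SJ.Poly I) := by
    apply poly_open
    intro h hh
    refine lt_of_le_of_ne (hx₁ h hh) fun he => ?_
    have := mem_act.2 ⟨hh, he⟩
    rw [hne] at this
    simp at this
  obtain ⟨y, hy, hpos⟩ := exists_pos hint hu
  have := hmax y hy
  rw [inner_sub_right] at hpos
  linarith

/-- **The faces through `p`**, one hyperplane for each active constraint. -/
lemma through_simple {I : Finset (E × ℝ)} (hI : ∀ h ∈ I, h.1 ≠ 0) {p : E} (hp : p ∈ SJ.Poly I)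
    {o : E} (ho : o ∈ interior (SJ.Poly I)) :
    ∃ H : Finset (E × ℝ), H.card ≤ (act I p).card ∧ (∀ h ∈ H, h.1 ≠ 0) ∧
      ∀ u : E, u ≠ 0 → (∀ y ∈ SJ.Poly I, ⟪u, y⟫_ℝ ≤ ⟪u, p⟫_ℝ) →
        ∃ h ∈ H, ⟪h.1, o⟫_ℝ < h.2 ∧ ∀ x ∈ SJ.Poly I, ⟪u, x⟫_ℝ = ⟪u, p⟫_ℝ → h.2 < ⟪h.1, x⟫_ℝ := by
  classical
  refine ⟨(act I p).image fun h => (h.1, (⟪h.1, o⟫_ℝ + h.2) / 2), Finset.card_image_le, ?_, ?_⟩
  · intro h hh
    obtain ⟨g, hg, rfl⟩ := Finset.mem_image.1 hh
    exact hI g (mem_act.1 hg).1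
  · intro u hu hmax
    obtain ⟨x₁, h1, h2, h3, -⟩ := exists_generic hp hmax
    obtain ⟨h, hh⟩ := act_nonempty hu h1 (fun y hy => by rw [h2]; exact hmax y hy)
    have hs := strict_lt hI ho (mem_act.1 hh).1
    refine ⟨_, Finset.mem_image_of_mem _ (h3 p hp rfl hh), ?_, fun x hx hxu => ?_⟩
    · show ⟪h.1, o⟫_ℝ < (⟪h.1, o⟫_ℝ + h.2) / 2
      linarith
    · show (⟪h.1, o⟫_ℝ + h.2) / 2 < ⟪h.1, x⟫_ℝ
      rw [(mem_act.1 (h3 x hx hxu hh)).2]
      linarith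

/-- the functional which vanishes on the smallest face containing `p` -/
noncomputable def ef (I : Finset (E × ℝ)) (p : E) : E := -∑ h ∈ act I p, h.1

/-- the span of the active normal vectors -/
noncomputable def AA (I : Finset (E × ℝ)) (p : E) : Submodule ℝ E :=
  Submodule.span ℝ (Prod.fst '' (act I p : Set (E × ℝ)))

omit [FiniteDimensional ℝ E] in
lemma mem_AA {I : Finset (E × ℝ)} {p : E} {h : E × ℝ} (hh : h ∈ act I p) : h.1 ∈ AA I p :=
  Submodule.subset_span ⟨h, hh, rfl⟩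

omit [FiniteDimensional ℝ E] in
lemma ef_mem (I : Finset (E × ℝ)) (p : E) : ef I p ∈ AA I p :=
  (AA I p).neg_mem (Submodule.sum_mem _ fun _ hh => mem_AA hh)

omit [FiniteDimensional ℝ E] in
lemma mem_orth {I : Finset (E × ℝ)} {p v : E} :
    v ∈ (AA I p)ᗮ ↔ ∀ h ∈ act I p, ⟪h.1, v⟫_ℝ = 0 := by
  constructor
  · intro hv h hh
    exact (Submodule.mem_orthogonal _ _).1 hv _ (mem_AA hh)
  · intro hv
    rw [Submodule.mem_orthogonal]
    intro u hu
    induction hu using Submodule.span_induction with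
    | mem x hx =>
      obtain ⟨h, hh, rfl⟩ := hx
      exact hv h hh
    | zero => simp
    | add x y _ _ hx hy => rw [inner_add_left, hx, hy, add_zero]
    | smul a x _ hx => rw [real_inner_smul_left, hx, mul_zero]

omit [FiniteDimensional ℝ E] in
lemma ef_inner (I : Finset (E × ℝ)) (p v : E) :
    ⟪ef I p, v⟫_ℝ = ∑ h ∈ act I p, -⟪h.1, v⟫_ℝ := by
  rw [ef, inner_neg_left, sum_inner, Finset.sum_neg_distrib]

omit [FiniteDimensional ℝ E] in
lemma ef_nonneg {I : Finset (E × ℝ)} {p v : E} (hv : ∀ h ∈ act I p, ⟪h.1, v⟫_ℝ ≤ 0) :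
    0 ≤ ⟪ef I p, v⟫_ℝ := by
  rw [ef_inner]
  exact Finset.sum_nonneg fun h hh => by linarith [hv h hh]

omit [FiniteDimensional ℝ E] in
lemma ef_zero {I : Finset (E × ℝ)} {p v : E} (hv : ∀ h ∈ act I p, ⟪h.1, v⟫_ℝ ≤ 0)
    (h0 : ⟪ef I p, v⟫_ℝ = 0) : v ∈ (AA I p)ᗮ := by
  rw [ef_inner, Finset.sum_eq_zero_iff_of_nonneg (fun h hh => by linarith [hv h hh])] at h0
  rw [mem_orth]
  intro h hh
  have := h0 h hh
  linarith

omit [FiniteDimensional ℝ E] in
lemma act_le {I : Finset (E × ℝ)} {p x : E} (hx : x ∈ SJ.Poly I) :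
    ∀ h ∈ act I p, ⟪h.1, x - p⟫_ℝ ≤ 0 := by
  intro h hh
  obtain ⟨h1, h2⟩ := mem_act.1 hh
  have := hx h h1
  rw [inner_sub_right, h2]
  linarith

lemma ef_pos {I : Finset (E × ℝ)} (hI : ∀ h ∈ I, h.1 ≠ 0) {p : E}
    (hJ : (act I p).Nonempty) {o : E} (ho : o ∈ interior (SJ.Poly I)) :
    0 < ⟪ef I p, o - p⟫_ℝ := by
  rw [ef_inner]
  refine Finset.sum_pos (fun h hh => ?_) hJ
  obtain ⟨h1, h2⟩ := mem_act.1 hh
  have := strict_lt hI ho h1
  rw [inner_sub_right, h2]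
  linarith

/-- a functional maximal at `p` is in the span of the active normal vectors -/
lemma normal_mem {I : Finset (E × ℝ)} {p u : E} (hp : p ∈ SJ.Poly I)
    (hmax : ∀ y ∈ SJ.Poly I, ⟪u, y⟫_ℝ ≤ ⟪u, p⟫_ℝ) : u ∈ AA I p := by
  have h1 : u ∈ (AA I p)ᗮᗮ := by
    rw [Submodule.mem_orthogonal]
    intro v hv
    rw [mem_orth] at hv
    obtain ⟨t, ht, h2⟩ := move (v := v) hp (fun h hh => (hv h hh).le)
    obtain ⟨s, hs, h3⟩ := move (v := -v) hp (fun h hh => by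
      rw [inner_neg_right, hv h hh, neg_zero])
    have h4 := hmax _ h2
    have h5 := hmax _ h3
    rw [inner_add_right, real_inner_smul_right] at h4 h5
    rw [inner_neg_right] at h5
    rw [real_inner_comm]
    have h6 : ⟪u, v⟫_ℝ ≤ 0 := by
      by_contra h7
      push Not at h7
      nlinarith
    have h7 : 0 ≤ ⟪u, v⟫_ℝ := by
      by_contra h8
      push Not at h8
      nlinarith
    linarith
  rwa [Submodule.orthogonal_orthogonal] at h1

omit [FiniteDimensional ℝ E] in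
/-- a functional maximal at `p` is nonpositive on the feasible directions -/
lemma normal_le {I : Finset (E × ℝ)} {p u v : E} (hp : p ∈ SJ.Poly I)
    (hmax : ∀ y ∈ SJ.Poly I, ⟪u, y⟫_ℝ ≤ ⟪u, p⟫_ℝ) (hv : ∀ h ∈ act I p, ⟪h.1, v⟫_ℝ ≤ 0) :
    ⟪u, v⟫_ℝ ≤ 0 := by
  obtain ⟨t, ht, h2⟩ := move (v := v) hp hv
  have h4 := hmax _ h2
  rw [inner_add_right, real_inner_smul_right] at h4
  by_contra h7
  push Not at h7
  nlinarith

end Pool.Agent.T2H45.NB
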