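import Pool.Agent.T2H45.NB.A

set_option autoImplicit false
set_option linter.unusedSectionVars false

/-!
# Interior points close to the boundary of a polytope, part 2

The hyperplanes for the faces which do not contain the boundary point.
-/

namespace Pool.Agent.T2H45.NB

open scoped InnerProductSpace Topology
open Metric Pool.Agent.H985.Sep Pool.Agent.R753 Pool.Agent.R753.SJ Module Filter

variable {E : Type} [NormedAddCommGroup E] [InnerProductSpace ℝ E] [FiniteDimensional ℝ E]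

omit [FiniteDimensional ℝ E] in
/-- compactness: `w` is large near the zero set of `e` -/
lemma unif {G : Set E} (hG : IsCompact G) (e w p : E) (c : ℝ) (he : ∀ x ∈ G, 0 ≤ ⟪e, x - p⟫_ℝ)
    (h0 : ∀ x ∈ G, ⟪e, x - p⟫_ℝ = 0 → c < ⟪w, x - p⟫_ℝ) :
    ∃ N₀ : ℝ, ∀ N ≥ N₀, ∀ x ∈ G, c < N * ⟪e, x - p⟫_ℝ + ⟪w, x - p⟫_ℝ := by
  set G' : Set E := G ∩ {x | ⟪w, x - p⟫_ℝ ≤ c} with hG'
  have hG'c : IsCompact G' := hG.inter_right (isClosed_le (by fun_prop) continuous_const)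
  rcases G'.eq_empty_or_nonempty with hE | hN
  · refine ⟨0, fun N hN x hx => ?_⟩
    have h1 : c < ⟪w, x - p⟫_ℝ := by
      by_contra h2
      have : x ∈ G' := ⟨hx, not_lt.1 h2⟩
      rw [hE] at this
      exact this
    have := mul_nonneg hN (he x hx)
    linarith
  · obtain ⟨x₁, hx₁, hmin⟩ := hG'c.exists_isMinOn hN (f := fun x => ⟪e, x - p⟫_ℝ) (by fun_prop)
    obtain ⟨x₂, hx₂, hmin₂⟩ := hG'c.exists_isMinOn hN (f := fun x => ⟪w, x - p⟫_ℝ) (by fun_prop)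
    have hδ : 0 < ⟪e, x₁ - p⟫_ℝ := by
      rcases lt_or_eq_of_le (he x₁ hx₁.1) with h1 | h1
      · exact h1
      · have h2 := h0 x₁ hx₁.1 h1.symm
        have h3 : ⟪w, x₁ - p⟫_ℝ ≤ c := hx₁.2
        linarith
    set δ := ⟪e, x₁ - p⟫_ℝ with hδd
    set b := ⟪w, x₂ - p⟫_ℝ with hb
    have hbc : b ≤ c := hx₂.2
    refine ⟨(c - b) / δ + 1, fun N hN x hx => ?_⟩
    have hN0 : 0 ≤ N := by
      have : 0 ≤ (c - b) / δ := div_nonneg (by linarith) hδ.le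
      linarith
    by_cases hx' : x ∈ G'
    · have h1 : δ ≤ ⟪e, x - p⟫_ℝ := hmin hx'
      have h2 : b ≤ ⟪w, x - p⟫_ℝ := hmin₂ hx'
      have h3 : ((c - b) / δ + 1) * δ ≤ N * ⟪e, x - p⟫_ℝ :=
        mul_le_mul hN h1 hδ.le hN0
      have h4 : ((c - b) / δ + 1) * δ = c - b + δ := by
        field_simp
      linarith
    · have h1 : c < ⟪w, x - p⟫_ℝ := by
        by_contra h2
        exact hx' ⟨hx, not_lt.1 h2⟩
      have := mul_nonneg hN0 (he x hx)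
      linarith

/-- **The faces which do not contain `p`**. -/
lemma away {I : Finset (E × ℝ)} (hI : ∀ h ∈ I, h.1 ≠ 0) (hK : IsCompact (SJ.Poly I))
    (hKi : (interior (SJ.Poly I)).Nonempty) {p : E}
    (hJ : (act I p).Nonempty) {n : ℕ} (hn : 1 ≤ n)
    (hs : Sepd n {z : (AA I p)ᗮ | p + (z : E) ∈ SJ.Poly I} 0) :
    ∃ H : Finset (E × ℝ), H.card ≤ n ∧ (∀ h ∈ H, h.1 ≠ 0) ∧ ∃ ε : ℝ, 0 < ε ∧
      ∀ o : E, dist o p < ε → ∀ u x₀ : E, x₀ ∈ SJ.Poly I →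
        (∀ y ∈ SJ.Poly I, ⟪u, y⟫_ℝ ≤ ⟪u, x₀⟫_ℝ) → ⟪u, p⟫_ℝ < ⟪u, x₀⟫_ℝ →
        ∃ h ∈ H, ⟪h.1, o⟫_ℝ < h.2 ∧
          ∀ x ∈ SJ.Poly I, ⟪u, x⟫_ℝ = ⟪u, x₀⟫_ℝ → h.2 < ⟪h.1, x⟫_ℝ := by
  classical
  obtain ⟨H₀, hc, -, hH₀⟩ := hs
  -- the relevant hyperplanes
  obtain ⟨H₁, hc1, hne1, hpos1, hsub⟩ : ∃ H₁ : Finset ((AA I p)ᗮ × ℝ), H₁.card ≤ n ∧
      H₁.Nonempty ∧ (∀ g ∈ H₁, 0 < g.2) ∧ ∀ g ∈ H₀, 0 < g.2 → g ∈ H₁ := by
    by_cases hne : (H₀.filter fun g => 0 < g.2).Nonempty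
    · refine ⟨H₀.filter fun g => 0 < g.2, (Finset.card_filter_le _ _).trans hc, hne, ?_, ?_⟩
      · intro g hg
        exact (Finset.mem_filter.1 hg).2
      · intro g hg hg2
        exact Finset.mem_filter.2 ⟨hg, hg2⟩
    · refine ⟨{(0, 1)}, by simpa using hn, by simp, by simp, fun g hg hg2 => ?_⟩
      exact absurd ⟨g, Finset.mem_filter.2 ⟨hg, hg2⟩⟩ hne
  set e := ef I p with he
  have hcl : ∀ J : Finset (E × ℝ), J ⊆ I → IsCompact {x | x ∈ SJ.Poly I ∧ J ⊆ act I x} := by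
    intro J hJI
    have e1 : {x | x ∈ SJ.Poly I ∧ J ⊆ act I x}
        = SJ.Poly I ∩ ⋂ h ∈ J, {x | ⟪h.1, x⟫_ℝ = h.2} := by
      ext x
      simp only [Set.mem_ofPred_eq, Set.mem_inter_iff, Set.mem_iInter]
      constructor
      · rintro ⟨h1, h2⟩
        exact ⟨h1, fun h hh => (mem_act.1 (h2 hh)).2⟩
      · rintro ⟨h1, h2⟩
        exact ⟨h1, fun h hh => mem_act.2 ⟨hJI hh, h2 h hh⟩⟩
    rw [e1]
    refine hK.inter_right (isClosed_biInter fun h _ => isClosed_eq (by fun_prop) continuous_const)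
  have hN : ∀ (J : Finset (E × ℝ)) (g : (AA I p)ᗮ × ℝ), ∃ N₀ : ℝ, J ⊆ I →
      (∀ z : (AA I p)ᗮ, p + (z : E) ∈ SJ.Poly I → J ⊆ act I (p + (z : E)) → g.2 < ⟪g.1, z⟫_ℝ) →
      ∀ N ≥ N₀, ∀ x ∈ SJ.Poly I, J ⊆ act I x →
        g.2 < N * ⟪e, x - p⟫_ℝ + ⟪(g.1 : E), x - p⟫_ℝ := by
    intro J g
    by_cases hcond : J ⊆ I ∧ (∀ z : (AA I p)ᗮ, p + (z : E) ∈ SJ.Poly I →
        J ⊆ act I (p + (z : E)) → g.2 < ⟪g.1, z⟫_ℝ)
    · obtain ⟨N₀, hN₀⟩ := unif (hcl J hcond.1) e (g.1 : E) p g.2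
        (fun x hx => ef_nonneg (act_le hx.1)) (fun x hx h0 => by
          have h1 := ef_zero (act_le hx.1) h0
          have h2 := hcond.2 ⟨x - p, h1⟩ (by simpa using hx.1) (by simpa using hx.2)
          rwa [Submodule.coe_inner] at h2)
      exact ⟨N₀, fun _ _ N hN x hx hxJ => hN₀ N hN x ⟨hx, hxJ⟩⟩
    · exact ⟨0, fun h1 h2 => absurd ⟨h1, h2⟩ hcond⟩
  choose N₀ hN₀ using hN
  set N : ℝ := 1 + ∑ J ∈ I.powerset, ∑ g ∈ H₁, |N₀ J g| with hNd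
  have hNle : ∀ J ∈ I.powerset, ∀ g ∈ H₁, N₀ J g ≤ N := by
    intro J hJ g hg
    have h1 : |N₀ J g| ≤ ∑ g ∈ H₁, |N₀ J g| :=
      Finset.single_le_sum (f := fun g => |N₀ J g|) (fun _ _ => abs_nonneg _) hg
    have h2 : ∑ g ∈ H₁, |N₀ J g| ≤ ∑ J ∈ I.powerset, ∑ g ∈ H₁, |N₀ J g| :=
      Finset.single_le_sum (f := fun J => ∑ g ∈ H₁, |N₀ J g|)
        (fun _ _ => Finset.sum_nonneg fun _ _ => abs_nonneg _) hJ
    have h3 := le_abs_self (N₀ J g)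
    linarith
  have hN1 : 1 ≤ N := by
    have : 0 ≤ ∑ J ∈ I.powerset, ∑ g ∈ H₁, |N₀ J g| :=
      Finset.sum_nonneg fun _ _ => Finset.sum_nonneg fun _ _ => abs_nonneg _
    linarith
  obtain ⟨o₁, ho₁⟩ := hKi
  have he0 : e ≠ 0 := by
    intro h
    have := ef_pos hI hJ ho₁
    rw [← he, h, inner_zero_left] at this
    exact lt_irrefl _ this
  -- the point `o`
  have hev : ∀ᶠ o in 𝓝 p, ∀ g ∈ H₁, ⟪N • e + (g.1 : E), o⟫_ℝ
      < ⟪N • e + (g.1 : E), p⟫_ℝ + g.2 := by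
    rw [Filter.eventually_all_finset]
    intro g hg
    have h1 : Tendsto (fun o : E => ⟪N • e + (g.1 : E), o⟫_ℝ) (𝓝 p)
        (𝓝 ⟪N • e + (g.1 : E), p⟫_ℝ) := by
      have : Continuous (fun o : E => ⟪N • e + (g.1 : E), o⟫_ℝ) := by fun_prop
      exact this.continuousAt.tendsto
    exact h1.eventually_lt_const (by have := hpos1 g hg; linarith)
  obtain ⟨ε, hε, hball⟩ := Metric.eventually_nhds_iff.1 hev
  refine ⟨H₁.image fun g => (N • e + (g.1 : E), ⟪N • e + (g.1 : E), p⟫_ℝ + g.2),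
    Finset.card_image_le.trans hc1, ?_, ε, hε, ?_⟩
  · intro h hh
    obtain ⟨g, hg, rfl⟩ := Finset.mem_image.1 hh
    intro h0
    have h1 : ⟪N • e + (g.1 : E), e⟫_ℝ = 0 := by
      show ⟪((N • e + (g.1 : E)) : E), e⟫_ℝ = 0
      rw [show N • e + (g.1 : E) = 0 from h0, inner_zero_left]
    have h2 : ⟪(g.1 : E), e⟫_ℝ = 0 := by
      rw [real_inner_comm]
      exact (Submodule.mem_orthogonal _ _).1 g.1.2 _ (ef_mem I p)
    rw [inner_add_left, real_inner_smul_left, h2, real_inner_self_eq_norm_sq] at h1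
    have h3 : 0 < ‖e‖ := norm_pos_iff.2 he0
    have h4 : 0 < N * ‖e‖ ^ 2 := by positivity
    linarith
  · intro o ho u x₀ hx₀ hmax hup
    obtain ⟨x₁, h1, h2, h3, h4⟩ := exists_generic hx₀ hmax
    have hJI : act I x₁ ⊆ I := fun h hh => (mem_act.1 hh).1
    -- the choice of the hyperplane
    obtain ⟨g, hg, hgz⟩ : ∃ g ∈ H₁, ∀ z : (AA I p)ᗮ, p + (z : E) ∈ SJ.Poly I →
        act I x₁ ⊆ act I (p + (z : E)) → g.2 < ⟪g.1, z⟫_ℝ := by
      by_cases hz : ∃ z₀ : (AA I p)ᗮ, p + (z₀ : E) ∈ SJ.Poly I ∧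
          act I x₁ ⊆ act I (p + (z₀ : E))
      · obtain ⟨z₀, hz₀, hz₀a⟩ := hz
        have hz₀u := h4 _ hz₀ hz₀a
        let uL : (AA I p)ᗮ := (AA I p)ᗮ.orthogonalProjectionOnto u
        have huL : ∀ z : (AA I p)ᗮ, ⟪uL, z⟫_ℝ = ⟪u, (z : E)⟫_ℝ := by
          intro z
          simp only [uL]
          rw [Submodule.inner_orthogonalProjectionOnto_eq_of_mem_right]
        have huz : ⟪uL, z₀⟫_ℝ = ⟪u, x₀⟫_ℝ - ⟪u, p⟫_ℝ := by
          rw [huL, ← hz₀u, inner_add_right]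
          ring
        obtain ⟨g, hg, hg1, hg2⟩ := hH₀ uL z₀ (by
            intro h0
            rw [h0, inner_zero_left] at huz
            linarith) hz₀ (fun z hz => by
            rw [huz, huL]
            have := hmax _ hz
            rw [inner_add_right] at this
            linarith)
        rw [inner_zero_right] at hg1
        refine ⟨g, hsub g hg hg1, fun z hz hza => hg2 z hz ?_⟩
        have := h4 _ hz hza
        rw [inner_add_right] at this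
        rw [huz, huL]
        linarith
      · push Not at hz
        obtain ⟨g, hg⟩ := hne1
        exact ⟨g, hg, fun z hz1 hz2 => absurd hz2 (hz z hz1)⟩
    refine ⟨_, Finset.mem_image_of_mem _ hg, hball ho g hg, fun x hx hxu => ?_⟩
    have h5 := hN₀ (act I x₁) g hJI hgz N (hNle _ (Finset.mem_powerset.2 hJI) g hg) x hx
      (h3 x hx hxu)
    show ⟪N • e + (g.1 : E), p⟫_ℝ + g.2 < ⟪N • e + (g.1 : E), x⟫_ℝ
    have h6 : ⟪N • e + (g.1 : E), x⟫_ℝ - ⟪N • e + (g.1 : E), p⟫_ℝ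
        = N * ⟪e, x - p⟫_ℝ + ⟪(g.1 : E), x - p⟫_ℝ := by
      rw [← inner_sub_right, inner_add_left, real_inner_smul_left]
    linarith

end Pool.Agent.T2H45.NB
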