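import Pool.Agent.T2H45.NB.B

set_option autoImplicit false
set_option linter.unusedSectionVars false

/-!
# Interior points close to the boundary of a polytope, part 3

The hyperplanes for the faces which contain the boundary point, by the quotient polytope.
-/

namespace Pool.Agent.T2H45.NB

open scoped InnerProductSpace Topology
open Metric Pool.Agent.H985.Sep Pool.Agent.R753 Pool.Agent.R753.SJ Module Filter

variable {E : Type} [NormedAddCommGroup E] [InnerProductSpace ℝ E] [FiniteDimensional ℝ E]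

/-- the space of the quotient polytope -/
noncomputable def MM (I : Finset (E × ℝ)) (p : E) : Submodule ℝ E :=
  AA I p ⊓ (Submodule.span ℝ {ef I p})ᗮ

/-- the quotient polytope (section of the cone of the faces at `p`) -/
def QQ (I : Finset (E × ℝ)) (p q : E) : Set (MM I p) :=
  {z | ∀ h ∈ act I p, ⟪h.1, q + (z : E)⟫_ℝ ≤ 0}

lemma finrank_MM {I : Finset (E × ℝ)} {p : E} (h : ef I p ≠ 0) :
    finrank ℝ (MM I p) + 1 + finrank ℝ (AA I p)ᗮ = finrank ℝ E := by
  have h1 := Submodule.finrank_add_finrank_orthogonal (AA I p)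
  have h2 : finrank ℝ (Submodule.span ℝ {ef I p}) = 1 := finrank_span_singleton h
  have hle : Submodule.span ℝ {ef I p} ≤ AA I p := by
    rw [Submodule.span_singleton_le_iff_mem]
    exact ef_mem I p
  have h3 := Submodule.finrank_add_inf_finrank_orthogonal hle
  rw [inf_comm] at h3
  have h4 : finrank ℝ (MM I p)
      = finrank ℝ (AA I p ⊓ (Submodule.span ℝ {ef I p})ᗮ : Submodule ℝ E) := rfl
  omega

lemma QQ_convex (I : Finset (E × ℝ)) (p q : E) : Convex ℝ (QQ I p q) := by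
  intro x hx y hy s t hs ht hst h hh
  have h1 := hx h hh
  have h2 := hy h hh
  rw [inner_add_right] at h1 h2 ⊢
  rw [Submodule.coe_add, Submodule.coe_smul, Submodule.coe_smul, inner_add_right,
    real_inner_smul_right, real_inner_smul_right]
  have h3 : ⟪h.1, q⟫_ℝ = s * ⟪h.1, q⟫_ℝ + t * ⟪h.1, q⟫_ℝ := by rw [← add_mul, hst, one_mul]
  nlinarith

lemma QQ_interior {I : Finset (E × ℝ)} {p q : E} (hq : ∀ h ∈ act I p, ⟪h.1, q⟫_ℝ < 0) :
    (0 : MM I p) ∈ interior (QQ I p q) := by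
  have ho : IsOpen {z : MM I p | ∀ h ∈ act I p, ⟪h.1, q + (z : E)⟫_ℝ < 0} := by
    have : {z : MM I p | ∀ h ∈ act I p, ⟪h.1, q + (z : E)⟫_ℝ < 0}
        = ⋂ h ∈ act I p, {z : MM I p | ⟪h.1, q + (z : E)⟫_ℝ < 0} := by
      ext; simp
    rw [this]
    exact isOpen_biInter_finset fun h _ => isOpen_lt (by fun_prop) continuous_const
  refine mem_interior.2 ⟨_, fun y hy h hh => (hy h hh).le, ho, fun h hh => ?_⟩
  simpa using hq h hh

lemma QQ_compact {I : Finset (E × ℝ)} {p q : E} : IsCompact (QQ I p q) := by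
  classical
  have hcl : IsClosed (QQ I p q) := by
    have : QQ I p q = ⋂ h ∈ act I p, {z : MM I p | ⟪h.1, q + (z : E)⟫_ℝ ≤ 0} := by
      ext; simp [QQ]
    rw [this]
    exact isClosed_biInter fun h _ => isClosed_le (by fun_prop) continuous_const
  refine Metric.isCompact_of_isClosed_isBounded hcl ?_
  -- the functionals separate the points of `MM`
  let f : MM I p →ₗ[ℝ] (act I p → ℝ) :=
    { toFun := fun z h => ⟪h.1.1, (z : E)⟫_ℝ
      map_add' := by intro x y; funext h; simp [inner_add_right]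
      map_smul' := by intro a x; funext h; simp [real_inner_smul_right] }
  have hker : LinearMap.ker f = ⊥ := by
    rw [LinearMap.ker_eq_bot']
    intro z hz
    have h1 : (z : E) ∈ (AA I p)ᗮ := by
      rw [mem_orth]
      intro h hh
      exact congrFun hz ⟨h, hh⟩
    have h2 : (z : E) ∈ AA I p := z.2.1
    have h3 : ⟪(z : E), (z : E)⟫_ℝ = 0 := (Submodule.mem_orthogonal _ _).1 h1 _ h2
    have h4 : (z : E) = 0 := inner_self_eq_zero.1 h3
    exact Subtype.ext h4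
  obtain ⟨C, hC, hanti⟩ := f.exists_antilipschitzWith hker
  -- a bound for the functionals
  set B : ℝ := ∑ h ∈ act I p, |⟪h.1, q⟫_ℝ| with hB
  have hb : ∀ z ∈ QQ I p q, ‖f z‖ ≤ B := by
    intro z hz
    have hB0 : 0 ≤ B := Finset.sum_nonneg fun _ _ => abs_nonneg _
    rw [pi_norm_le_iff_of_nonneg hB0]
    rintro ⟨h, hh⟩
    have hsum : ∑ g ∈ act I p, ⟪g.1, (z : E)⟫_ℝ = 0 := by
      have h1 : ⟪ef I p, (z : E)⟫_ℝ = 0 :=
        (Submodule.mem_orthogonal _ _).1 z.2.2 _ (Submodule.mem_span_singleton_self _)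
      rw [ef_inner, Finset.sum_neg_distrib] at h1
      linarith
    have hle : ∀ g ∈ act I p, ⟪g.1, (z : E)⟫_ℝ ≤ |⟪g.1, q⟫_ℝ| := by
      intro g hg
      have h2 := hz g hg
      rw [inner_add_right] at h2
      have h3 := neg_abs_le ⟪g.1, q⟫_ℝ
      linarith
    have h1 : |⟪h.1, q⟫_ℝ| ≤ B :=
      Finset.single_le_sum (f := fun g : E × ℝ => |⟪g.1, q⟫_ℝ|) (fun _ _ => abs_nonneg _) hh
    have h2 := Finset.add_sum_erase (act I p) (fun g => ⟪g.1, (z : E)⟫_ℝ) hh
    have h3 := Finset.add_sum_erase (act I p) (fun g : E × ℝ => |⟪g.1, q⟫_ℝ|) hh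
    have h4 : ∑ g ∈ (act I p).erase h, ⟪g.1, (z : E)⟫_ℝ
        ≤ ∑ g ∈ (act I p).erase h, |⟪g.1, q⟫_ℝ| :=
      Finset.sum_le_sum fun g hg => hle g (Finset.mem_of_mem_erase hg)
    have h5 := hle h hh
    have h6 := abs_nonneg ⟪h.1, q⟫_ℝ
    show ‖⟪h.1, (z : E)⟫_ℝ‖ ≤ B
    rw [Real.norm_eq_abs, abs_le]
    constructor <;> linarith
  rw [isBounded_iff_forall_norm_le]
  refine ⟨C * B, fun z hz => ?_⟩
  have h1 := hanti.le_mul_dist z 0
  rw [dist_zero_right, map_zero, dist_zero_right] at h1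
  exact h1.trans (mul_le_mul_of_nonneg_left (hb z hz) C.2)

/-- **The faces through `p`**, by the quotient polytope. -/
lemma through {I : Finset (E × ℝ)} (hI : ∀ h ∈ I, h.1 ≠ 0) {p : E} (hp : p ∈ SJ.Poly I)
    (hJ : (act I p).Nonempty) {m : ℕ} (hm : 1 ≤ m)
    (hB : ∀ C : Set (MM I p), Convex ℝ C → IsCompact C → 0 ∈ interior C → Sepd m C 0)
    {o : E} (ho : o ∈ interior (SJ.Poly I)) :
    ∃ H : Finset (E × ℝ), H.card ≤ m ∧ (∀ h ∈ H, h.1 ≠ 0) ∧
      ∀ u : E, u ≠ 0 → (∀ y ∈ SJ.Poly I, ⟪u, y⟫_ℝ ≤ ⟪u, p⟫_ℝ) →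
        ∃ h ∈ H, ⟪h.1, o⟫_ℝ < h.2 ∧
          ∀ x ∈ SJ.Poly I, ⟪u, x⟫_ℝ = ⟪u, p⟫_ℝ → h.2 < ⟪h.1, x⟫_ℝ := by
  classical
  set e := ef I p with he
  set l : ℝ := ⟪e, o - p⟫_ℝ with hl
  have hl0 : 0 < l := ef_pos hI hJ ho
  set q : E := l⁻¹ • (o - p) with hq
  have hlq : l • q = o - p := by rw [hq, smul_inv_smul₀ hl0.ne']
  have heq : ⟪e, q⟫_ℝ = 1 := by
    rw [hq, real_inner_smul_right, ← hl, inv_mul_cancel₀ hl0.ne']
  have hqs : ∀ h ∈ act I p, ⟪h.1, q⟫_ℝ < 0 := by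
    intro h hh
    obtain ⟨h1, h2⟩ := mem_act.1 hh
    have h3 := strict_lt hI ho h1
    rw [hq, real_inner_smul_right, inner_sub_right, h2]
    exact mul_neg_of_pos_of_neg (inv_pos.2 hl0) (by linarith)
  clear_value q
  obtain ⟨H₀, hc, -, hH₀⟩ := hB (QQ I p q) (QQ_convex I p q) QQ_compact (QQ_interior hqs)
  obtain ⟨H₁, hc1, hne1, hpos1, hsub⟩ : ∃ H₁ : Finset (MM I p × ℝ), H₁.card ≤ m ∧
      H₁.Nonempty ∧ (∀ g ∈ H₁, 0 < g.2) ∧ ∀ g ∈ H₀, 0 < g.2 → g ∈ H₁ := by
    by_cases hne : (H₀.filter fun g => 0 < g.2).Nonempty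
    · refine ⟨H₀.filter fun g => 0 < g.2, (Finset.card_filter_le _ _).trans hc, hne, ?_, ?_⟩
      · intro g hg
        exact (Finset.mem_filter.1 hg).2
      · intro g hg hg2
        exact Finset.mem_filter.2 ⟨hg, hg2⟩
    · refine ⟨{(0, 1)}, by simpa using hm, by simp, by simp, fun g hg hg2 => ?_⟩
      exact absurd ⟨g, Finset.mem_filter.2 ⟨hg, hg2⟩⟩ hne
  let W : MM I p × ℝ → E := fun g => (g.1 : E) - (⟪(g.1 : E), q⟫_ℝ + g.2) • e
  have hW : ∀ g : MM I p × ℝ, ∀ y : E, ⟪W g, y⟫_ℝ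
      = ⟪(g.1 : E), y⟫_ℝ - (⟪(g.1 : E), q⟫_ℝ + g.2) * ⟪e, y⟫_ℝ := by
    intro g y
    simp only [W]
    rw [inner_sub_left, real_inner_smul_left]
  have hWo : ∀ g : MM I p × ℝ, ⟪W g, o - p⟫_ℝ = -(g.2 * l) := by
    intro g
    rw [hW, ← hlq, real_inner_smul_right, real_inner_smul_right, heq]
    ring
  refine ⟨H₁.image fun g => (W g, ⟪W g, p⟫_ℝ - g.2 * l / 2),
    Finset.card_image_le.trans hc1, ?_, ?_⟩
  · intro h hh
    obtain ⟨g, hg, rfl⟩ := Finset.mem_image.1 hh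
    intro h0
    have h1 := hWo g
    rw [show W g = 0 from h0, inner_zero_left] at h1
    have := mul_pos (hpos1 g hg) hl0
    linarith
  · intro u hu hmax
    have huA : u ∈ AA I p := normal_mem hp hmax
    -- the choice of the hyperplane
    obtain ⟨g, hg, hgz⟩ : ∃ g ∈ H₁, ∀ x ∈ SJ.Poly I, ⟪u, x⟫_ℝ = ⟪u, p⟫_ℝ →
        0 ≤ ⟪W g, x - p⟫_ℝ := by
      -- points of the face off the smallest face
      have hz : ∀ x ∈ SJ.Poly I, ⟪u, x⟫_ℝ = ⟪u, p⟫_ℝ → 0 < ⟪e, x - p⟫_ℝ →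
          ∃ z : MM I p, z ∈ QQ I p q ∧ ⟪u, q + (z : E)⟫_ℝ = 0 ∧
            ∀ w : MM I p, ⟪(w : E), x - p⟫_ℝ = ⟪e, x - p⟫_ℝ * ⟪(w : E), q + (z : E)⟫_ℝ := by
        intro x hx hxu hpos
        set μ : ℝ := ⟪e, x - p⟫_ℝ with hμ
        let z₀ : E := ((AA I p).orthogonalProjectionOnto (μ⁻¹ • (x - p) - q) : E)
        have hz₀ : ∀ v ∈ AA I p, ⟪v, z₀⟫_ℝ = ⟪v, μ⁻¹ • (x - p) - q⟫_ℝ := by
          intro v hv
          simp only [z₀]
          have := Submodule.inner_orthogonalProjectionOnto_eq_of_mem_left (K := AA I p)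
            ⟨v, hv⟩ (μ⁻¹ • (x - p) - q)
          rw [← this, Submodule.coe_inner]
        have hz₁ : ∀ v ∈ AA I p, ⟪v, q + z₀⟫_ℝ = μ⁻¹ * ⟪v, x - p⟫_ℝ := by
          intro v hv
          rw [inner_add_right, hz₀ v hv, inner_sub_right, real_inner_smul_right]
          ring
        have hzM : z₀ ∈ MM I p := by
          refine ⟨Submodule.coe_mem _, ?_⟩
          rw [SetLike.mem_coe, Submodule.mem_orthogonal_singleton_iff_inner_right]
          have h1 := hz₁ _ (ef_mem I p)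
          rw [← he, ← hμ, inv_mul_cancel₀ hpos.ne', inner_add_right, heq] at h1
          rw [← he]
          linarith
        refine ⟨⟨z₀, hzM⟩, ?_, ?_, ?_⟩
        · intro h hh
          show ⟪h.1, q + z₀⟫_ℝ ≤ 0
          rw [hz₁ _ (mem_AA hh)]
          have := act_le hx h hh
          exact mul_nonpos_of_nonneg_of_nonpos (inv_nonneg.2 hpos.le) this
        · show ⟪u, q + z₀⟫_ℝ = 0
          rw [hz₁ _ huA, inner_sub_right, hxu, sub_self, mul_zero]
        · intro w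
          show ⟪(w : E), x - p⟫_ℝ = μ * ⟪(w : E), q + z₀⟫_ℝ
          rw [hz₁ _ w.2.1, ← mul_assoc, mul_inv_cancel₀ hpos.ne', one_mul]
      have hcase0 : ∀ g : MM I p × ℝ, ∀ x ∈ SJ.Poly I, ⟪e, x - p⟫_ℝ = 0 →
          0 ≤ ⟪W g, x - p⟫_ℝ := by
        intro g x hx h0
        have h1 := ef_zero (act_le hx) h0
        rw [hW, h0, mul_zero, sub_zero, (Submodule.mem_orthogonal _ _).1 h1 _ g.1.2.1]
      by_cases hex : ∃ x₁ ∈ SJ.Poly I, ⟪u, x₁⟫_ℝ = ⟪u, p⟫_ℝ ∧ 0 < ⟪e, x₁ - p⟫_ℝ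
      · obtain ⟨x₁, hx₁, hx₁u, hx₁e⟩ := hex
        obtain ⟨z₁, hz₁, hz₁u, -⟩ := hz x₁ hx₁ hx₁u hx₁e
        let uM : MM I p := (MM I p).orthogonalProjectionOnto u
        have huM : ∀ z : MM I p, ⟪uM, z⟫_ℝ = ⟪u, (z : E)⟫_ℝ := by
          intro z
          simp only [uM]
          rw [Submodule.inner_orthogonalProjectionOnto_eq_of_mem_right]
        have huq : ⟪u, q⟫_ℝ < 0 := by
          obtain ⟨y, hy, hpos⟩ := exists_pos ho hu
          have h1 := hmax y hy
          have h2 : ⟪u, o - p⟫_ℝ < 0 := by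
            rw [inner_sub_right] at hpos ⊢
            linarith
          rw [hq, real_inner_smul_right]
          exact mul_neg_of_pos_of_neg (inv_pos.2 hl0) h2
        have h1 : ⟪uM, z₁⟫_ℝ = -⟪u, q⟫_ℝ := by
          rw [huM]
          rw [inner_add_right] at hz₁u
          linarith
        obtain ⟨g, hg, hg1, hg2⟩ := hH₀ uM z₁ (by
          intro h0
          rw [h0, inner_zero_left] at h1
          linarith) hz₁ (fun z hz => by
          have h2 := normal_le hp hmax (v := q + (z : E)) hz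
          rw [inner_add_right] at h2
          rw [h1, huM]
          linarith)
        rw [inner_zero_right] at hg1
        refine ⟨g, hsub g hg hg1, fun x hx hxu => ?_⟩
        rcases lt_or_eq_of_le (ef_nonneg (act_le hx)) with h2 | h2
        · obtain ⟨z, hz1, hz2, hz3⟩ := hz x hx hxu h2
          have h3 := hg2 z hz1 (by
            rw [h1, huM]
            rw [inner_add_right] at hz2
            linarith)
          rw [hW, hz3 g.1, inner_add_right]
          rw [Submodule.coe_inner] at h3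
          have h4 : 0 < ⟪e, x - p⟫_ℝ := h2
          nlinarith
        · exact hcase0 g x hx h2.symm
      · push Not at hex
        obtain ⟨g, hg⟩ := hne1
        refine ⟨g, hg, fun x hx hxu => hcase0 g x hx ?_⟩
        exact le_antisymm (hex x hx hxu) (ef_nonneg (act_le hx))
    refine ⟨_, Finset.mem_image_of_mem _ hg, ?_, fun x hx hxu => ?_⟩
    · show ⟪W g, o⟫_ℝ < ⟪W g, p⟫_ℝ - g.2 * l / 2
      have h1 := hWo g
      rw [inner_sub_right] at h1
      have := mul_pos (hpos1 g hg) hl0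
      linarith
    · show ⟪W g, p⟫_ℝ - g.2 * l / 2 < ⟪W g, x⟫_ℝ
      have h1 := hgz x hx hxu
      rw [inner_sub_right] at h1
      have := mul_pos (hpos1 g hg) hl0
      linarith

end Pool.Agent.T2H45.NB
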