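import Pool.Agent.T2H45.NB.C

set_option autoImplicit false
set_option linter.unusedSectionVars false

/-!
# Interior points close to the boundary of a polytope, part 4

The local theorems, and uniformity by compactness.
-/

namespace Pool.Agent.T2H45.NB

open scoped InnerProductSpace Topology
open Metric Pool.Agent.H985.Sep Pool.Agent.R753 Pool.Agent.R753.SJ Module Filter

variable {E : Type} [NormedAddCommGroup E] [InnerProductSpace ℝ E] [FiniteDimensional ℝ E]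

/-- the face of `p`, in the space of its directions -/
def FF (I : Finset (E × ℝ)) (p : E) : Set (AA I p)ᗮ := {z | p + (z : E) ∈ SJ.Poly I}

omit [FiniteDimensional ℝ E] in
lemma FF_convex (I : Finset (E × ℝ)) (p : E) : Convex ℝ (FF I p) := by
  intro x hx y hy s t hs ht hst
  have h1 : p + ((s • x + t • y : (AA I p)ᗮ) : E) = s • (p + (x : E)) + t • (p + (y : E)) := by
    rw [Submodule.coe_add, Submodule.coe_smul, Submodule.coe_smul, smul_add, smul_add,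
      add_add_add_comm, ← add_smul, hst, one_smul]
  show p + ((s • x + t • y : (AA I p)ᗮ) : E) ∈ SJ.Poly I
  rw [h1]
  intro h hh
  have a1 := hx h hh
  have a2 := hy h hh
  rw [inner_add_right, real_inner_smul_right, real_inner_smul_right]
  have h3 : h.2 = s * h.2 + t * h.2 := by rw [← add_mul, hst, one_mul]
  nlinarith

lemma FF_compact {I : Finset (E × ℝ)} (hK : IsCompact (SJ.Poly I)) (p : E) :
    IsCompact (FF I p) := by
  have hcl : Topology.IsClosedEmbedding (fun z : (AA I p)ᗮ => p + (z : E)) :=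
    (Homeomorph.addLeft p).isClosedEmbedding.comp
      (AA I p)ᗮ.closed_of_finiteDimensional.isClosedEmbedding_subtypeVal
  exact hcl.isCompact_preimage hK

lemma FF_interior {I : Finset (E × ℝ)} {p : E} (hp : p ∈ SJ.Poly I) :
    (0 : (AA I p)ᗮ) ∈ interior (FF I p) := by
  classical
  have ho : IsOpen {z : (AA I p)ᗮ | ∀ h ∈ I.filter (fun h => ⟪h.1, p⟫_ℝ ≠ h.2),
      ⟪h.1, p + (z : E)⟫_ℝ < h.2} := by
    have : {z : (AA I p)ᗮ | ∀ h ∈ I.filter (fun h => ⟪h.1, p⟫_ℝ ≠ h.2),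
        ⟪h.1, p + (z : E)⟫_ℝ < h.2}
        = ⋂ h ∈ I.filter (fun h => ⟪h.1, p⟫_ℝ ≠ h.2),
          {z : (AA I p)ᗮ | ⟪h.1, p + (z : E)⟫_ℝ < h.2} := by
      ext; simp
    rw [this]
    exact isOpen_biInter_finset fun h _ => isOpen_lt (by fun_prop) continuous_const
  refine mem_interior.2 ⟨_, fun z hz h hh => ?_, ho, fun h hh => ?_⟩
  · by_cases hha : ⟪h.1, p⟫_ℝ = h.2
    · have := mem_orth.1 z.2 h (mem_act.2 ⟨hh, hha⟩)
      rw [inner_add_right, this, add_zero, hha]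
    · exact (hz h (Finset.mem_filter.2 ⟨hh, hha⟩)).le
  · obtain ⟨h1, h2⟩ := Finset.mem_filter.1 hh
    rw [Submodule.coe_zero, add_zero]
    exact lt_of_le_of_ne (hp h h1) h2

/-- combination of the two families -/
lemma combine {I : Finset (E × ℝ)} {p o : E} {n m : ℕ} (hp : p ∈ SJ.Poly I)
    (h1 : ∃ H : Finset (E × ℝ), H.card ≤ m ∧ (∀ h ∈ H, h.1 ≠ 0) ∧
      ∀ u : E, u ≠ 0 → (∀ y ∈ SJ.Poly I, ⟪u, y⟫_ℝ ≤ ⟪u, p⟫_ℝ) →
        ∃ h ∈ H, ⟪h.1, o⟫_ℝ < h.2 ∧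
          ∀ x ∈ SJ.Poly I, ⟪u, x⟫_ℝ = ⟪u, p⟫_ℝ → h.2 < ⟪h.1, x⟫_ℝ)
    (h2 : ∃ H : Finset (E × ℝ), H.card ≤ n ∧ (∀ h ∈ H, h.1 ≠ 0) ∧
      ∀ u x₀ : E, x₀ ∈ SJ.Poly I → (∀ y ∈ SJ.Poly I, ⟪u, y⟫_ℝ ≤ ⟪u, x₀⟫_ℝ) →
        ⟪u, p⟫_ℝ < ⟪u, x₀⟫_ℝ → ∃ h ∈ H, ⟪h.1, o⟫_ℝ < h.2 ∧
          ∀ x ∈ SJ.Poly I, ⟪u, x⟫_ℝ = ⟪u, x₀⟫_ℝ → h.2 < ⟪h.1, x⟫_ℝ) :
    Sepd (n + m) (SJ.Poly I) o := by
  classical
  obtain ⟨H₁, c1, n1, s1⟩ := h1
  obtain ⟨H₂, c2, n2, s2⟩ := h2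
  refine ⟨H₂ ∪ H₁, (Finset.card_union_le _ _).trans (by omega), ?_, ?_⟩
  · intro h hh
    rcases Finset.mem_union.1 hh with hh | hh
    · exact n2 h hh
    · exact n1 h hh
  · intro u x₀ hu hx₀ hmax
    rcases lt_or_eq_of_le (hmax p hp) with h3 | h3
    · obtain ⟨h, hh, h4⟩ := s2 u x₀ hx₀ hmax h3
      exact ⟨h, Finset.mem_union_left _ hh, h4⟩
    · obtain ⟨h, hh, h4, h5⟩ := s1 u hu (fun y hy => by rw [h3]; exact hmax y hy)
      exact ⟨h, Finset.mem_union_right _ hh, h4, fun x hx hxu => h5 x hx (by rw [hxu, h3])⟩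

/-- **Local theorem**, with the quotient polytope. -/
theorem near {I : Finset (E × ℝ)} (hI : ∀ h ∈ I, h.1 ≠ 0) (hK : IsCompact (SJ.Poly I))
    (hKi : (interior (SJ.Poly I)).Nonempty) {p : E} (hp : p ∈ SJ.Poly I)
    (hJ : (act I p).Nonempty) {n m : ℕ} (hn : 1 ≤ n) (hm : 1 ≤ m) (hs : Sepd n (FF I p) 0)
    (hB : ∀ C : Set (MM I p), Convex ℝ C → IsCompact C → 0 ∈ interior C → Sepd m C 0) :
    ∃ ε : ℝ, 0 < ε ∧ ∀ o ∈ interior (SJ.Poly I), dist o p < ε → Sepd (n + m) (SJ.Poly I) o := by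
  obtain ⟨H, h1, h2, ε, hε, h3⟩ := away hI hK hKi hJ hn hs
  exact ⟨ε, hε, fun o ho hd => combine hp (through hI hp hJ hm hB ho) ⟨H, h1, h2, h3 o hd⟩⟩

/-- **Local theorem**, with the number of the active constraints. -/
theorem near_simple {I : Finset (E × ℝ)} (hI : ∀ h ∈ I, h.1 ≠ 0) (hK : IsCompact (SJ.Poly I))
    (hKi : (interior (SJ.Poly I)).Nonempty) {p : E} (hp : p ∈ SJ.Poly I)
    (hJ : (act I p).Nonempty) {n : ℕ} (hn : 1 ≤ n) (hs : Sepd n (FF I p) 0) :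
    ∃ ε : ℝ, 0 < ε ∧ ∀ o ∈ interior (SJ.Poly I), dist o p < ε →
      Sepd (n + (act I p).card) (SJ.Poly I) o := by
  obtain ⟨H, h1, h2, ε, hε, h3⟩ := away hI hK hKi hJ hn hs
  exact ⟨ε, hε, fun o ho hd => combine hp (through_simple hI hp ho) ⟨H, h1, h2, h3 o hd⟩⟩

/-- compactness -/
theorem uniform {K S : Set E} (hS : IsCompact S) {N : ℕ}
    (h : ∀ p ∈ S, ∃ ε : ℝ, 0 < ε ∧ ∀ o ∈ interior K, dist o p < ε → Sepd N K o) :
    ∃ δ : ℝ, 0 < δ ∧ ∀ o ∈ interior K, (∃ p ∈ S, dist o p < δ) → Sepd N K o := by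
  choose! ε hε hN using h
  obtain ⟨δ, hδ, hL⟩ := lebesgue_number_lemma_of_metric (c := fun p : S => ball (p : E) (ε p)) hS
    (fun p => isOpen_ball) (fun p hp => Set.mem_iUnion.2 ⟨⟨p, hp⟩, mem_ball_self (hε p hp)⟩)
  refine ⟨δ, hδ, fun o ho hp => ?_⟩
  obtain ⟨p, hp, hd⟩ := hp
  obtain ⟨q, hq⟩ := hL p hp
  exact hN q q.2 o ho (hq hd)

lemma Sepd.mono {K : Set E} {o : E} {n m : ℕ} (h : Sepd n K o) (hnm : n ≤ m) : Sepd m K o := by
  obtain ⟨H, h1, h2⟩ := h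
  exact ⟨H, h1.trans hnm, h2⟩

/-- the bounds in small dimensions -/
def bd : ℕ → ℕ
  | 0 => 1
  | 1 => 2
  | 2 => 4
  | _ => 13

lemma one_le_bd : ∀ k, 1 ≤ bd k
  | 0 => le_rfl
  | 1 => by simp [bd]
  | 2 => by simp [bd]
  | (k + 3) => by simp [bd]

lemma sepd_small {V : Type} [NormedAddCommGroup V] [InnerProductSpace ℝ V] [FiniteDimensional ℝ V]
    {k : ℕ} (hk : finrank ℝ V = k) (hk3 : k ≤ 3) {C : Set V}
    (hCc : IsCompact C) (h0 : (0 : V) ∈ interior C) : Sepd (bd k) C 0 := by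
  by_cases h3 : k = 3
  · subst h3
    exact sepd_of_cover h0 (cover_13 hk (convex_polar C 0) (isCompact_polar h0)
      (interior_polar_nonempty hCc h0))
  · have h2 : k ≤ 2 := by omega
    have h := sepd_of_cover h0 (cover_le_two hk h2 (convex_polar C 0) (isCompact_polar h0)
      (interior_polar_nonempty hCc h0))
    refine Sepd.mono h ?_
    interval_cases k <;> simp [bd]

lemma act_of_frontier {I : Finset (E × ℝ)} {p : E} (hp : p ∈ SJ.Poly I)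
    (hp' : p ∉ interior (SJ.Poly I)) : (act I p).Nonempty := by
  by_contra hne
  rw [Finset.not_nonempty_iff_eq_empty] at hne
  apply hp'
  apply poly_open
  intro h hh
  refine lt_of_le_of_ne (hp h hh) fun he => ?_
  have := mem_act.2 ⟨hh, he⟩
  rw [hne] at this
  simp at this

lemma ef_ne {I : Finset (E × ℝ)} (hI : ∀ h ∈ I, h.1 ≠ 0)
    (hKi : (interior (SJ.Poly I)).Nonempty) {p : E} (hJ : (act I p).Nonempty) : ef I p ≠ 0 := by
  obtain ⟨o, ho⟩ := hKi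
  intro h
  have := ef_pos hI hJ ho
  rw [h, inner_zero_left] at this
  exact lt_irrefl _ this

/-- **The neighbourhood of the boundary**. -/
theorem boundary {d : ℕ} (hd : finrank ℝ E = d) (B : ℕ → ℕ) (hB1 : ∀ k, 1 ≤ B k)
    (hB : ∀ k < d, ∀ (V : Type) [NormedAddCommGroup V] [InnerProductSpace ℝ V]
      [FiniteDimensional ℝ V], finrank ℝ V = k → ∀ C : Set V, Convex ℝ C → IsCompact C →
      0 ∈ interior C → Sepd (B k) C 0) {N : ℕ} (hN : ∀ k m, k + m + 1 = d → B k + B m ≤ N)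
    {I : Finset (E × ℝ)} (hI : ∀ h ∈ I, h.1 ≠ 0) (hK : IsCompact (SJ.Poly I))
    (hKi : (interior (SJ.Poly I)).Nonempty) :
    ∃ δ : ℝ, 0 < δ ∧ ∀ o ∈ interior (SJ.Poly I),
      (∃ p ∈ frontier (SJ.Poly I), dist o p < δ) → Sepd N (SJ.Poly I) o := by
  refine uniform (hK.of_isClosed_subset isClosed_frontier hK.isClosed.frontier_subset)
    fun p hp => ?_
  have hpK : p ∈ SJ.Poly I := hK.isClosed.frontier_subset hp
  have hJ : (act I p).Nonempty := act_of_frontier hpK hp.2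
  have hdim := finrank_MM (ef_ne hI hKi hJ)
  rw [hd] at hdim
  obtain ⟨ε, hε, h⟩ := near (n := B (finrank ℝ (AA I p)ᗮ)) (m := B (finrank ℝ (MM I p)))
    hI hK hKi hpK hJ (hB1 _) (hB1 _)
    (hB _ (by omega) _ rfl _ (FF_convex I p) (FF_compact hK p) (FF_interior hpK))
    (fun C h1 h2 h3 => hB _ (by omega) _ rfl C h1 h2 h3)
  exact ⟨ε, hε, fun o ho hd => Sepd.mono (h o ho hd) (hN _ _ (by omega))⟩

/-- the skeletons are compact -/
lemma skel_compact {I : Finset (E × ℝ)} (hK : IsCompact (SJ.Poly I)) (j : ℕ) :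
    IsCompact {x | x ∈ SJ.Poly I ∧ j ≤ (act I x).card} := by
  classical
  have e1 : {x | x ∈ SJ.Poly I ∧ j ≤ (act I x).card}
      = ⋃ J ∈ I.powerset.filter (fun J => j ≤ J.card),
        (SJ.Poly I ∩ ⋂ h ∈ J, {x | ⟪h.1, x⟫_ℝ = h.2}) := by
    ext x
    simp only [Set.mem_ofPred_eq, Set.mem_iUnion, Set.mem_inter_iff, Set.mem_iInter,
      Finset.mem_filter, Finset.mem_powerset, exists_prop]
    constructor
    · rintro ⟨h1, h2⟩
      exact ⟨act I x, ⟨fun h hh => (mem_act.1 hh).1, h2⟩, h1, fun h hh => (mem_act.1 hh).2⟩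
    · rintro ⟨J, ⟨hJ1, hJ2⟩, h1, h2⟩
      exact ⟨h1, hJ2.trans (Finset.card_le_card fun h hh => mem_act.2 ⟨hJ1 hh, h2 h hh⟩)⟩
  rw [e1]
  refine Finset.isCompact_biUnion _ fun J _ => hK.inter_right ?_
  exact isClosed_biInter fun h _ => isClosed_eq (by fun_prop) continuous_const

lemma finrank_AA {I : Finset (E × ℝ)} {p : E}
    (h : LinearIndependent ℝ (fun h : act I p => h.1.1)) :
    finrank ℝ (AA I p) = (act I p).card := by
  have h1 := finrank_span_eq_card h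
  have h2 : Set.range (fun h : act I p => h.1.1) = Prod.fst '' (act I p : Set (E × ℝ)) := by
    ext x
    constructor
    · rintro ⟨h, rfl⟩
      exact ⟨h.1, h.2, rfl⟩
    · rintro ⟨h, hh, rfl⟩
      exact ⟨⟨h, hh⟩, rfl⟩
  rw [h2, Fintype.card_coe] at h1
  exact h1

/-- **Simple polytopes near the skeletons**. -/
theorem skeleton {d : ℕ} (hd : finrank ℝ E = d) (B : ℕ → ℕ) (hB1 : ∀ k, 1 ≤ B k)
    (hB : ∀ (k : ℕ) (V : Type) [NormedAddCommGroup V] [InnerProductSpace ℝ V]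
      [FiniteDimensional ℝ V], finrank ℝ V = k → ∀ C : Set V, IsCompact C →
      0 ∈ interior C → Sepd (B k) C 0)
    {I : Finset (E × ℝ)} (hI : ∀ h ∈ I, h.1 ≠ 0)
    (hK : IsCompact (SJ.Poly I)) (hKi : (interior (SJ.Poly I)).Nonempty)
    (hlin : ∀ x ∈ SJ.Poly I, LinearIndependent ℝ (fun h : act I x => h.1.1)) {r N : ℕ}
    (hrd : r < d) (hN : ∀ k ≤ r, B k + (d - k) ≤ N) :
    ∃ δ : ℝ, 0 < δ ∧ ∀ o ∈ interior (SJ.Poly I),
      (∃ p ∈ {x | x ∈ SJ.Poly I ∧ d - r ≤ (act I x).card}, dist o p < δ) →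
      Sepd N (SJ.Poly I) o := by
  refine uniform (skel_compact hK _) fun p hp => ?_
  obtain ⟨hpK, hpc⟩ := hp
  have hJ : (act I p).Nonempty := Finset.card_pos.1 (by omega)
  have hfr := finrank_AA (hlin p hpK)
  have hdim := Submodule.finrank_add_finrank_orthogonal (AA I p)
  rw [hd, hfr] at hdim
  set k := finrank ℝ (AA I p)ᗮ with hk
  have hkr : k ≤ r := by omega
  obtain ⟨ε, hε, h⟩ := near_simple (n := B k) hI hK hKi hpK hJ (hB1 k)
    (hB k _ hk.symm _ (FF_compact hK p) (FF_interior hpK))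
  refine ⟨ε, hε, fun o ho hd => Sepd.mono (h o ho hd) ?_⟩
  have := hN k hkr
  omega

end Pool.Agent.T2H45.NB
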