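import Pool.Agent.T2H45.NB.D
import Pool.Agent.TH438.Hull.Equality

set_option autoImplicit false
set_option linter.unusedSectionVars false

/-!
# Interior points close to the boundary of a polytope, part 5

Plane bodies which need four lines, and simple polytopes in space.
-/

namespace Pool.Agent.T2H45.NB

open scoped InnerProductSpace Topology
open Metric Pool.Agent.H985.Sep Pool.Agent.R753 Pool.Agent.R753.SJ Module Filter

/-- Levi's theorem and its equality case, for separation. -/
theorem plane {C : Set (EuclideanSpace ℝ (Fin 2))} (hC : Convex ℝ C) (hCc : IsCompact C)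
    (h0 : (0 : EuclideanSpace ℝ (Fin 2)) ∈ interior C) :
    Sepd 3 C 0 ∨ ∃ (v : Fin 2 → EuclideanSpace ℝ (Fin 2)) (t : Fin 2 → ℝ),
      LinearIndependent ℝ v ∧ (∀ i, 0 < t i) ∧
      C = convexHull ℝ (Set.range (fun i => v i) ∪ Set.range (fun i => -(t i • v i))) := by
  classical
  by_cases hno : ∃ D : Finset (EuclideanSpace ℝ (Fin 2)), D.card ≤ 2 ^ 2 - 1 ∧
      ∀ x ∈ TH438.Hull.Pol C 0, ∃ v ∈ D, H843R3.Had2.Co (TH438.Hull.Pol C 0) x v
  · left
    obtain ⟨D, hD, h1⟩ := hno
    obtain ⟨T, hT, h2⟩ := W677.Shadow.cover_of_dirs (TH438.Hull.Pol.convex C 0)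
      (TH438.Hull.Pol.isCompact h0) D h1
    exact sepd_of_cover h0 ⟨T, hT.trans hD, h2⟩
  · right
    have hPc := TH438.Hull.Pol.isCompact (K := C) (o := 0) h0
    have hP0 : (0 : EuclideanSpace ℝ (Fin 2)) ∈ interior (TH438.Hull.Pol C 0) :=
      TH438.Hull.Pol.zero_mem_interior hCc
    rcases TH438.Levi.levi (TH438.Hull.Pol.convex C 0) hPc ⟨0, hP0⟩ with ⟨W, hW, h⟩ | ⟨Z, hZ, h⟩
    · exact absurd ⟨W, hW, h⟩ hno
    · have hext : (TH438.Hull.Pol C 0).extremePoints ℝ ⊆ Z := by
        rw [h]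
        exact extremePoints_convexHull_subset
      obtain ⟨v, t, hv, ht, hCe⟩ := TH438.Hull.cross_of_points (n := 2) (by norm_num) hCc hC h0 Z
        hZ hext hno
      refine ⟨v, t, hv, ht, ?_⟩
      rw [hCe]
      congr 2
      · ext i
        simp
      · ext i
        simp

/-- isometries -/
lemma sepd_isometry {V W : Type*} [NormedAddCommGroup V] [InnerProductSpace ℝ V]
    [NormedAddCommGroup W] [InnerProductSpace ℝ W] (f : V ≃ₗᵢ[ℝ] W) {C : Set V} {n : ℕ}
    (h : Sepd n (f '' C) 0) : Sepd n C 0 := by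
  classical
  obtain ⟨H, hc, hn, hH⟩ := h
  have hf : ∀ (w : W) (v : V), ⟪f.symm w, v⟫_ℝ = ⟪w, f v⟫_ℝ := by
    intro w v
    rw [← f.inner_map_map, f.apply_symm_apply]
  refine ⟨H.image fun h => (f.symm h.1, h.2), Finset.card_image_le.trans hc, ?_, ?_⟩
  · intro h hh
    obtain ⟨g, hg, rfl⟩ := Finset.mem_image.1 hh
    intro h0
    have h1 : f.symm g.1 = 0 := h0
    exact hn g hg (by rwa [map_eq_zero_iff f.symm f.symm.injective] at h1)
  · intro u x₀ hu hx₀ hmax
    obtain ⟨g, hg, h1, h2⟩ := hH (f u) (f x₀)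
      (by rwa [ne_eq, map_eq_zero_iff f f.injective]) ⟨x₀, hx₀, rfl⟩ (by
        rintro _ ⟨y, hy, rfl⟩
        rw [f.inner_map_map, f.inner_map_map]
        exact hmax y hy)
    refine ⟨_, Finset.mem_image_of_mem _ hg, ?_, fun x hx hxu => ?_⟩
    · show ⟪f.symm g.1, 0⟫_ℝ < g.2
      rwa [inner_zero_right] at h1 ⊢
    · show g.2 < ⟪f.symm g.1, x⟫_ℝ
      rw [hf]
      exact h2 _ ⟨x, hx, rfl⟩ (by rw [f.inner_map_map, f.inner_map_map, hxu])

/-- Levi's theorem in a plane -/
theorem plane' {V : Type} [NormedAddCommGroup V] [InnerProductSpace ℝ V] [FiniteDimensional ℝ V]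
    (hV : finrank ℝ V = 2) {C : Set V} (hC : Convex ℝ C) (hCc : IsCompact C)
    (h0 : (0 : V) ∈ interior C) :
    Sepd 3 C 0 ∨ ∃ (v w : V) (s t : ℝ), LinearIndependent ℝ ![v, w] ∧ 0 < s ∧ 0 < t ∧
      C = convexHull ℝ {v, -(s • v), w, -(t • w)} := by
  let f : V ≃ₗᵢ[ℝ] EuclideanSpace ℝ (Fin 2) := ((stdOrthonormalBasis ℝ V).reindex (finCongr hV)).repr
  have hi : (0 : EuclideanSpace ℝ (Fin 2)) ∈ interior (f '' C) := by
    have h1 : interior (f '' C) = f '' interior C := (f.toHomeomorph.image_interior C).symm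
    rw [h1]
    exact ⟨0, h0, map_zero f⟩
  rcases plane (hC.linear_image f.toLinearEquiv.toLinearMap) (hCc.image f.continuous) hi with
    h | ⟨v, t, hv, ht, hCe⟩
  · exact Or.inl (sepd_isometry f h)
  · right
    refine ⟨f.symm (v 0), f.symm (v 1), t 0, t 1, ?_, ht 0, ht 1, ?_⟩
    · have h1 : (![f.symm (v 0), f.symm (v 1)] : Fin 2 → V) = f.symm ∘ v := by
        funext i
        fin_cases i <;> rfl
      rw [h1]
      exact hv.map' f.symm.toLinearEquiv.toLinearMap (LinearEquiv.ker f.symm.toLinearEquiv)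
    · have h1 : C = f.symm '' (f '' C) := by
        rw [← Set.image_comp]
        have : (f.symm ∘ f : V → V) = id := by
          funext x
          exact f.symm_apply_apply x
        rw [this, Set.image_id]
      have h2 : f '' C = convexHull ℝ (Set.range (fun i => v i) ∪
          Set.range (fun i => -(t i • v i))) := hCe
      rw [h1, h2]
      have h3 := LinearMap.image_convexHull (𝕜 := ℝ) f.symm.toLinearEquiv.toLinearMap
        (Set.range (fun i => v i) ∪ Set.range (fun i => -(t i • v i)))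
      have h4 : f.symm '' (convexHull ℝ (Set.range (fun i => v i) ∪
          Set.range (fun i => -(t i • v i)))) = f.symm.toLinearEquiv.toLinearMap ''
          (convexHull ℝ (Set.range (fun i => v i) ∪ Set.range (fun i => -(t i • v i)))) := rfl
      rw [h4, h3]
      congr 1
      ext x
      simp only [Set.mem_image, Set.mem_union, Set.mem_range, Set.mem_insert_iff,
        Set.mem_singleton_iff, Fin.exists_fin_two]
      constructor
      · rintro ⟨y, (h | h) | (h | h), rfl⟩
        · left; rw [← h]; rfl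
        · right; right; left; rw [← h]; rfl
        · right; left; rw [← h]
          exact (map_neg _ _).trans (congrArg Neg.neg (map_smul f.symm.toLinearEquiv _ _))
        · right; right; right; rw [← h]
          exact (map_neg _ _).trans (congrArg Neg.neg (map_smul f.symm.toLinearEquiv _ _))
      · rintro (rfl | rfl | rfl | rfl)
        · exact ⟨v 0, Or.inl (Or.inl rfl), rfl⟩
        · exact ⟨-(t 0 • v 0), Or.inr (Or.inl rfl),
            (map_neg _ _).trans (congrArg Neg.neg (map_smul f.symm.toLinearEquiv _ _))⟩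
        · exact ⟨v 1, Or.inl (Or.inr rfl), rfl⟩
        · exact ⟨-(t 1 • v 1), Or.inr (Or.inr rfl),
            (map_neg _ _).trans (congrArg Neg.neg (map_smul f.symm.toLinearEquiv _ _))⟩

variable {E : Type} [NormedAddCommGroup E] [InnerProductSpace ℝ E] [FiniteDimensional ℝ E]

omit [FiniteDimensional ℝ E] in
/-- the smallest face containing `p` -/
lemma face_eq {I : Finset (E × ℝ)} {p : E} :
    {x | x ∈ SJ.Poly I ∧ act I p ⊆ act I x} = (fun z : (AA I p)ᗮ => p + (z : E)) '' FF I p := by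
  ext x
  constructor
  · rintro ⟨h1, h2⟩
    refine ⟨⟨x - p, ?_⟩, ?_, ?_⟩
    · rw [mem_orth]
      intro h hh
      rw [inner_sub_right, (mem_act.1 (h2 hh)).2, (mem_act.1 hh).2, sub_self]
    · show p + (x - p) ∈ SJ.Poly I
      rwa [add_sub_cancel]
    · show p + (x - p) = x
      rw [add_sub_cancel]
  · rintro ⟨z, hz, rfl⟩
    refine ⟨hz, fun h hh => mem_act.2 ⟨(mem_act.1 hh).1, ?_⟩⟩
    show ⟪h.1, p + (z : E)⟫_ℝ = h.2
    rw [inner_add_right, mem_orth.1 z.2 h hh, (mem_act.1 hh).2, add_zero]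

/-- **Simple polytopes in space without quadrilateral facets**. -/
theorem four (hd : finrank ℝ E = 3) {I : Finset (E × ℝ)} (hI : ∀ h ∈ I, h.1 ≠ 0)
    (hK : IsCompact (SJ.Poly I)) (hKi : (interior (SJ.Poly I)).Nonempty)
    (hlin : ∀ x ∈ SJ.Poly I, LinearIndependent ℝ (fun h : act I x => h.1.1))
    (hquad : ∀ (p v w : E) (s t : ℝ), LinearIndependent ℝ ![v, w] → 0 < s → 0 < t →
      {x | x ∈ SJ.Poly I ∧ act I p ⊆ act I x} ≠
        convexHull ℝ {p + v, p - s • v, p + w, p - t • w}) :
    ∃ δ : ℝ, 0 < δ ∧ ∀ o ∈ interior (SJ.Poly I),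
      (∃ p ∈ frontier (SJ.Poly I), dist o p < δ) → Sepd 4 (SJ.Poly I) o := by
  refine uniform (hK.of_isClosed_subset isClosed_frontier hK.isClosed.frontier_subset)
    fun p hp => ?_
  have hpK : p ∈ SJ.Poly I := hK.isClosed.frontier_subset hp
  have hJ : (act I p).Nonempty := act_of_frontier hpK hp.2
  have hdim := Submodule.finrank_add_finrank_orthogonal (AA I p)
  have hfr := finrank_AA (hlin p hpK)
  rw [hd, hfr] at hdim
  have hc := Finset.card_pos.2 hJ
  by_cases h2 : finrank ℝ (AA I p)ᗮ = 2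
  · rcases plane' h2 (FF_convex I p) (FF_compact hK p) (FF_interior hpK) with
      h | ⟨v, w, s, t, hvw, hs, ht, he⟩
    · obtain ⟨ε, hε, h⟩ := near_simple (n := 3) hI hK hKi hpK hJ (by norm_num) h
      exact ⟨ε, hε, fun o ho hd => Sepd.mono (h o ho hd) (by omega)⟩
    · exfalso
      refine hquad p v w s t ?_ hs ht ?_
      · have h3 := hvw.map' (AA I p)ᗮ.subtype (Submodule.ker_subtype _)
        have h4 : ((AA I p)ᗮ.subtype ∘ ![v, w] : Fin 2 → E) = ![(v : E), (w : E)] := by
          funext i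
          fin_cases i <;> rfl
        rwa [h4] at h3
      · rw [face_eq, he]
        let T : (AA I p)ᗮ →ᵃ[ℝ] E :=
          (AA I p)ᗮ.subtype.toAffineMap + AffineMap.const ℝ _ p
        have hT : (fun z : (AA I p)ᗮ => p + (z : E)) = T := by
          funext z
          show p + (z : E) = (z : E) + p
          rw [add_comm]
        rw [hT, AffineMap.image_convexHull]
        congr 1
        rw [Set.image_insert_eq, Set.image_insert_eq, Set.image_insert_eq, Set.image_singleton,
          ← hT]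
        simp only [Submodule.coe_neg, Submodule.coe_smul, sub_eq_add_neg]
  · obtain ⟨ε, hε, h⟩ := near_simple (n := bd (finrank ℝ (AA I p)ᗮ)) hI hK hKi hpK hJ (one_le_bd _)
      (sepd_small rfl (by omega) (FF_compact hK p) (FF_interior hpK))
    refine ⟨ε, hε, fun o ho hd => Sepd.mono (h o ho hd) ?_⟩
    have h3 : finrank ℝ (AA I p)ᗮ = 0 ∨ finrank ℝ (AA I p)ᗮ = 1 := by omega
    rcases h3 with h3 | h3 <;> rw [h3] at hdim ⊢ <;> simp only [bd] <;> omega

end Pool.Agent.T2H45.NB
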